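import Pool.Agent.H38.RB.LBTargets

/-!
# Many violating tuples (MP_7ecdd4_nt): adding `1, -1`
-/

set_option autoImplicit false

namespace Pool.Agent.H48.RB

open Pool.Agent.H38.AE.Statement
open Pool.Agent.H38.RB.LB

/-- adding the entries `1, -1` -/
def ext {n : ℕ} (x : Fin n → ℤ) : Fin (n + 2) → ℤ :=
  Fin.cons 1 (Fin.cons (-1) x : Fin (n + 1) → ℤ)

lemma ext_succ {n : ℕ} (x : Fin n → ℤ) (i : Fin n) : ext x i.succ.succ = x i := rfl

lemma ext_cases {n : ℕ} {p : ℤ → Prop} (x : Fin n → ℤ) (h1 : p 1) (h2 : p (-1))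
    (h3 : ∀ i, p (x i)) (i : Fin (n + 2)) : p (ext x i) := by
  refine Fin.cases ?_ (fun i => ?_) i
  · exact h1
  · refine Fin.cases ?_ (fun i => ?_) i
    · exact h2
    · exact h3 i

lemma ext_adm {n : ℕ} {x : Fin n → ℤ} (h : Admissible x) : Admissible (ext x) := by
  obtain ⟨h0, h1, h2⟩ := h
  refine ⟨fun i => ext_cases (p := fun z => z ≠ 0) x one_ne_zero (by norm_num) h0 i, ?_, ?_⟩
  · intro i k
    refine Fin.cases ?_ (fun i => ?_) i
    · intro _
      exact isCoprime_one_left
    · refine Fin.cases ?_ (fun k => ?_) k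
      · intro _
        exact isCoprime_one_right
      · refine Fin.cases ?_ (fun i => ?_) i
        · intro _
          exact isCoprime_one_left.neg_left
        · refine Fin.cases ?_ (fun k => ?_) k
          · intro _
            exact isCoprime_one_right.neg_right
          · intro hik
            exact h1 i k (fun h => hik (by rw [h]))
  · unfold ext
    rw [Fin.sum_univ_succ, Fin.sum_univ_succ]
    simp [h2]

lemma ext_prod {n : ℕ} (x : Fin n → ℤ) : ∏ i, ext x i = -∏ i, x i := by
  unfold ext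
  rw [Fin.prod_univ_succ, Fin.prod_univ_succ]
  simp

lemma ext_rad {n : ℕ} (x : Fin n → ℤ) : radical (∏ i, ext x i) = radical (∏ i, x i) := by
  rw [ext_prod]
  unfold radical
  rw [Int.natAbs_neg]

theorem L2 : T_L2 := by
  intro n D d h
  obtain ⟨A, f, hA, hinj, hadm, hle, hge, hrad⟩ := h
  refine ⟨A, fun t => ext (f t), hA, ?_, fun t => ext_adm (hadm t), ?_, ?_, ?_⟩
  · intro t t' htt
    refine hinj ?_
    funext i
    exact congrFun htt i.succ.succ
  · intro t i
    have h1 : (1 : ℝ) ≤ A * ((t : ℝ) + 1) ^ D := by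
      have h2 : (1 : ℝ) ≤ ((t : ℝ) + 1) ^ D := one_le_pow₀ (by
        have : (0 : ℝ) ≤ t := Nat.cast_nonneg t
        linarith)
      nlinarith
    exact ext_cases (p := fun z => |((z : ℤ) : ℝ)| ≤ A * ((t : ℝ) + 1) ^ D) (f t)
      (by simpa using h1) (by simpa using h1) (hle t) i
  · intro t
    obtain ⟨i, hi⟩ := hge t
    exact ⟨i.succ.succ, hi⟩
  · intro t
    rw [ext_rad]
    exact hrad t

end Pool.Agent.H48.RB
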