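import Pool.Agent.H38.RB.LBTargets
import Pool.Agent.H25.SN.Seven

/-!
# Many violating tuples (MP_7ecdd4_nt): six terms
-/

set_option autoImplicit false

namespace Pool.Agent.H48.RB

open Pool.Agent.H38.AE.Statement
open Pool.Agent.H38.RB.LB
open Pool.Agent.H25.SN (rad_le)
open Pool.Agent.H25.SN.Seven (B R x u3 u4 pair sum_zero)

/-- the parameter -/
def sp (t : ℕ) : ℤ := 29 + R * ((t : ℤ) + 1)

lemma R_val : R = 2196287898252630 := by unfold R; norm_num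

lemma B_val : B = 804501061631 := rfl

lemma sp_mod (t : ℕ) : sp t ≡ 29 [ZMOD R] := by
  unfold sp
  have h : (29 : ℤ) + R * ((t : ℤ) + 1) ≡ 29 + 0 [ZMOD R] := by
    refine Int.ModEq.add_left 29 ?_
    exact (Int.modEq_zero_iff_dvd).2 (Dvd.intro _ rfl)
  rwa [add_zero] at h

lemma sp_ge (t : ℕ) : R * ((t : ℤ) + 1) ≤ sp t ∧ sp t ≤ 2 * R * ((t : ℤ) + 1) := by
  unfold sp
  rw [R_val]
  have : (0 : ℤ) ≤ t := Int.natCast_nonneg t
  constructor <;> linarith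

lemma sp_big (t : ℕ) : 1000000 ≤ sp t := by
  have h1 := (sp_ge t).1
  rw [R_val] at h1
  have : (0 : ℤ) ≤ t := Int.natCast_nonneg t
  linarith

lemma sp_inj : Function.Injective sp := by
  intro t t' h
  unfold sp at h
  rw [R_val] at h
  have : (t : ℤ) = t' := by linarith
  exact_mod_cast this

lemma adm (t : ℕ) : Admissible (x (sp t)) := by
  have h := Pool.Agent.H25.SN.Seven.admissible (sp_mod t)
  exact ⟨h.1, fun i j hij => Int.isCoprime_iff_gcd_eq_one.2 (h.2.1 i j hij), h.2.2⟩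

section bounds

variable {s : ℤ} (hs : 1000000 ≤ s)

include hs

omit hs in
lemma u3_nonneg (s : ℤ) : 0 ≤ u3 s := by unfold u3; positivity

lemma u3_le : u3 s ≤ 8 * s ^ 2 := by
  unfold u3
  nlinarith

lemma u4_nonneg : 0 ≤ u4 s := by
  unfold u4
  nlinarith

lemma u4_le : u4 s ≤ s ^ 2 := by
  unfold u4
  nlinarith

lemma x_le (i : Fin 6) : |x s i| ≤ 512 * s ^ 7 + B := by
  have h7 : 0 ≤ s ^ 7 := by positivity
  have hB : 0 ≤ B := by unfold B; norm_num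
  have h67 : s ^ 6 ≤ s ^ 7 := pow_le_pow_right₀ (by linarith) (by norm_num)
  have e1 : |(s - 48) ^ 7| ≤ s ^ 7 := by
    rw [abs_of_nonneg (by
      have : 0 ≤ s - 48 := by linarith
      positivity)]
    exact pow_le_pow_left₀ (by linarith) (by linarith) 7
  have e2 : |(u3 s) ^ 3| ≤ 512 * s ^ 6 := by
    rw [abs_of_nonneg (pow_nonneg (u3_nonneg s) 3)]
    calc (u3 s) ^ 3 ≤ (8 * s ^ 2) ^ 3 := pow_le_pow_left₀ (u3_nonneg s) (u3_le hs) 3
      _ = 512 * s ^ 6 := by ring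
  have e3 : |7 * (u4 s) ^ 3| ≤ 7 * s ^ 6 := by
    rw [abs_of_nonneg (mul_nonneg (by norm_num) (pow_nonneg (u4_nonneg hs) 3))]
    calc 7 * (u4 s) ^ 3 ≤ 7 * (s ^ 2) ^ 3 :=
          mul_le_mul_of_nonneg_left (pow_le_pow_left₀ (u4_nonneg hs) (u4_le hs) 3) (by norm_num)
      _ = 7 * s ^ 6 := by ring
  have h6 : 0 ≤ s ^ 6 := by positivity
  fin_cases i
  · change |s ^ 7| ≤ _
    rw [abs_of_nonneg h7]
    linarith
  · change |-(s - 48) ^ 7| ≤ _
    rw [abs_neg]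
    linarith
  · change |-(u3 s) ^ 3| ≤ _
    rw [abs_neg]
    linarith
  · change |7 * (u4 s) ^ 3| ≤ _
    linarith
  · change |(1 : ℤ)| ≤ _
    rw [abs_one]
    have : 1 ≤ B := by unfold B; norm_num
    linarith
  · change |B| ≤ _
    rw [abs_of_nonneg hB]
    linarith

lemma rad_x (h0 : ∏ i, x s i ≠ 0) : (radical (∏ i, x s i) : ℤ) ≤ 56 * B * s ^ 6 := by
  have hB : 0 ≤ B := by unfold B; norm_num
  set K : ℤ := s * (s - 48) * u3 s * u4 s * 7 * B with hK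
  have hs48 : 0 ≤ s - 48 := by linarith
  have h3 := u3_nonneg s
  have h4 := u4_nonneg hs
  have hs0 : 0 ≤ s := by linarith
  have hK0 : 0 ≤ K := by positivity
  have hP : ∏ i, x s i = s ^ 7 * (s - 48) ^ 7 * u3 s ^ 3 * u4 s ^ 3 * (7 * B) := by
    simp only [x, Fin.prod_univ_succ, Fin.prod_univ_zero]
    simp
    ring
  have hdvd : (∏ i, x s i) ∣ K ^ 7 := by
    rw [hP, hK]
    refine ⟨u3 s ^ 4 * u4 s ^ 4 * (7 * B) ^ 6, ?_⟩
    ring
  have hKne : K ≠ 0 := by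
    intro h
    rw [h, zero_pow (by norm_num)] at hdvd
    rw [hP] at h0
    rw [hK] at h
    apply h0
    have h5 : s * (s - 48) * u3 s * u4 s * 7 * B = 0 := h
    simp only [mul_eq_zero] at h5 ⊢
    have e7 : (7 : ℤ) ≠ 0 := by norm_num
    rcases h5 with ((((h5 | h5) | h5) | h5) | h5) | h5
    · simp [h5]
    · simp [h5]
    · simp [h5]
    · simp [h5]
    · exact absurd h5 e7
    · simp [h5]
  have h1 : (∏ i, x s i).natAbs ∣ K.natAbs ^ 7 := by
    rw [← Int.natAbs_pow]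
    exact Int.natAbs_dvd_natAbs.2 hdvd
  have h2 : radical (∏ i, x s i) ≤ K.natAbs := rad_le (Int.natAbs_pos.2 hKne) 7 h1
  have h5 : (radical (∏ i, x s i) : ℤ) ≤ K := by
    calc (radical (∏ i, x s i) : ℤ) ≤ (K.natAbs : ℤ) := by exact_mod_cast h2
      _ = K := by rw [Int.natCast_natAbs, abs_of_nonneg hK0]
  refine h5.trans ?_
  rw [hK]
  calc s * (s - 48) * u3 s * u4 s * 7 * B ≤ s * s * (8 * s ^ 2) * (s ^ 2) * 7 * B := by
        have := u3_le hs
        have := u4_le hs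
        gcongr
        linarith
    _ = 56 * B * s ^ 6 := by ring

end bounds

theorem L5 : T_L5 := by
  refine ⟨512 * (2 * (R : ℝ)) ^ 7 + (R : ℝ) ^ 1, fun t => x (sp t), ?_, ?_, adm, ?_, ?_, ?_⟩
  · have hR : (1 : ℝ) ≤ (R : ℝ) := by
      rw [R_val]
      norm_num
    have : (0 : ℝ) ≤ 512 * (2 * (R : ℝ)) ^ 7 := by positivity
    linarith
  · intro t t' h
    have h1 : (sp t) ^ 7 = (sp t') ^ 7 := congrFun h 0
    have h2 := sp_big t
    have h3 := sp_big t'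
    exact sp_inj ((pow_left_inj₀ (by linarith) (by linarith) (by norm_num)).1 h1)
  · intro t i
    have hR : (1 : ℝ) ≤ (R : ℝ) := by
      rw [R_val]
      norm_num
    have ht : (1 : ℝ) ≤ (t : ℝ) + 1 := by
      have : (0 : ℝ) ≤ t := Nat.cast_nonneg t
      linarith
    have h1 := x_le (sp_big t) i
    have h2 : |((x (sp t) i : ℤ) : ℝ)| ≤ 512 * (sp t : ℝ) ^ 7 + B := by exact_mod_cast h1
    have h3 : (sp t : ℝ) ≤ 2 * R * ((t : ℝ) + 1) := by exact_mod_cast (sp_ge t).2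
    have h4 : (0 : ℝ) ≤ sp t := by
      have := sp_big t
      have h5 : (0 : ℤ) ≤ sp t := by linarith
      exact_mod_cast h5
    have hB : (B : ℝ) ≤ R := by
      have : B ≤ R := by
        rw [R_val, B_val]
        norm_num
      exact_mod_cast this
    have h5 : (1 : ℝ) ≤ ((t : ℝ) + 1) ^ 7 := one_le_pow₀ ht
    calc |((x (sp t) i : ℤ) : ℝ)| ≤ 512 * (sp t : ℝ) ^ 7 + B := h2
      _ ≤ 512 * (2 * R * ((t : ℝ) + 1)) ^ 7 + R * ((t : ℝ) + 1) ^ 7 := by
          refine add_le_add ?_ ?_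
          · exact mul_le_mul_of_nonneg_left (pow_le_pow_left₀ h4 h3 7) (by norm_num)
          · nlinarith
      _ = _ := by ring
  · intro t
    refine ⟨0, ?_⟩
    have h1 := (sp_ge t).1
    have hR1 : 1 ≤ R := by
      rw [R_val]
      norm_num
    have h2 : (t : ℤ) + 1 ≤ sp t := by nlinarith
    have h3 : ((t : ℝ) + 1) ≤ (sp t : ℝ) := by exact_mod_cast h2
    have h4 : ((x (sp t) 0 : ℤ) : ℝ) = (sp t : ℝ) ^ 7 := by
      have : x (sp t) 0 = (sp t) ^ 7 := rfl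
      rw [this]
      push_cast
      rfl
    rw [h4]
    refine le_trans ?_ (le_abs_self _)
    exact pow_le_pow_left₀ (by positivity) h3 7
  · intro t
    have hR : (1 : ℝ) ≤ (R : ℝ) := by
      rw [R_val]
      norm_num
    have ht : (1 : ℝ) ≤ (t : ℝ) + 1 := by
      have : (0 : ℝ) ≤ t := Nat.cast_nonneg t
      linarith
    have h0 : ∏ i, x (sp t) i ≠ 0 := Finset.prod_ne_zero_iff.2 fun i _ => (adm t).1 i
    have h1 := rad_x (sp_big t) h0
    have h2 : (radical (∏ i, x (sp t) i) : ℝ) ≤ 56 * B * (sp t : ℝ) ^ 6 := by exact_mod_cast h1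
    have h3 : (sp t : ℝ) ≤ 2 * R * ((t : ℝ) + 1) := by exact_mod_cast (sp_ge t).2
    have h4 : (0 : ℝ) ≤ sp t := by
      have := sp_big t
      have h5 : (0 : ℤ) ≤ sp t := by linarith
      exact_mod_cast h5
    have hB : (B : ℝ) ≤ R := by
      have : B ≤ R := by
        rw [R_val, B_val]
        norm_num
      exact_mod_cast this
    have hB0 : (0 : ℝ) ≤ B := by
      have : (0 : ℤ) ≤ B := by rw [B_val]; norm_num
      exact_mod_cast this
    obtain ⟨ρ, hρ⟩ : ∃ ρ : ℝ, ρ = (R : ℝ) := ⟨_, rfl⟩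
    obtain ⟨β, hβ⟩ : ∃ β : ℝ, β = (B : ℝ) := ⟨_, rfl⟩
    rw [← hρ] at hR h3 hB ⊢
    rw [← hβ] at h2 hB hB0
    obtain ⟨σ, hσ⟩ : ∃ σ : ℝ, σ = (sp t : ℝ) := ⟨_, rfl⟩
    rw [← hσ] at h2 h3 h4
    calc (radical (∏ i, x (sp t) i) : ℝ) ≤ 56 * β * σ ^ 6 := h2
      _ ≤ 56 * ρ * (2 * ρ * ((t : ℝ) + 1)) ^ 6 := by gcongr
      _ = (28 * (2 * ρ) ^ 7) * ((t : ℝ) + 1) ^ 6 := by ring
      _ ≤ (512 * (2 * ρ) ^ 7 + ρ ^ 1) * ((t : ℝ) + 1) ^ 6 := by
          refine mul_le_mul_of_nonneg_right ?_ (by positivity)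
          have : (0 : ℝ) ≤ (2 * ρ) ^ 7 := by positivity
          linarith

end Pool.Agent.H48.RB
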